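import Pool.Agent.W8.LS.Stm

/-! Project LS (helper8): solutions of `cosh (2 π z) = w` (helper557). -/

set_option autoImplicit false

namespace Pool.Agent.W557.LS

open Pool.Agent.W8.LS
open Complex (I)

theorem CoshBasic_proof : CoshBasic := by
  have hpi : (Real.pi : ℂ) ≠ 0 := Complex.ofReal_ne_zero.2 Real.pi_ne_zero
  refine ⟨fun w => ?_, fun z z' h => ?_⟩
  · obtain ⟨u, hu⟩ := Complex.cos_surjective w
    refine ⟨-(u * I) / (2 * (Real.pi : ℂ)), ?_⟩
    have h1 : 2 * (Real.pi : ℂ) * (-(u * I) / (2 * (Real.pi : ℂ))) = -(u * I) := by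
      field_simp
    rw [h1, Complex.cosh_neg, Complex.cosh_mul_I, hu]
  · rw [← Complex.cos_mul_I, ← Complex.cos_mul_I, Complex.cos_eq_cos_iff] at h
    obtain ⟨k, hk⟩ := h
    have hI : I * I = -1 := Complex.I_mul_I
    refine ⟨-k, ?_⟩
    rcases hk with hk | hk
    · left
      have h2 : (2 * (Real.pi : ℂ)) * (z' * I) = (2 * (Real.pi : ℂ)) * (k + z * I) := by
        linear_combination hk
      have h3 := mul_left_cancel₀ (mul_ne_zero two_ne_zero hpi) h2
      push_cast
      linear_combination (-I) * h3 + (z' - z) * hI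
    · right
      have h2 : (2 * (Real.pi : ℂ)) * (z' * I) = (2 * (Real.pi : ℂ)) * (k - z * I) := by
        linear_combination hk
      have h3 := mul_left_cancel₀ (mul_ne_zero two_ne_zero hpi) h2
      push_cast
      linear_combination (-I) * h3 + (z + z') * hI

end Pool.Agent.W557.LS
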